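import Pool.Agent.Helper78.MG.Goals

namespace Pool.Agent.Helper8.MG

open Pool.Agent.Helper78.MG Pool.Agent.Helper78.DT
open scoped Classical

theorem cov (hSub : SubStmt) (hNum : NumStmt) : CovStmt := by
  intro m M D U p z W hU
  have hUr : (0 : ℝ) < U := by exact_mod_cast hU
  rcases Nat.eq_zero_or_pos M with hM | hM
  · subst hM
    refine ⟨[], by simp, by simp, ?_⟩
    have h0 : pr (fun r => ∃ y : List Bool, y.length ≤ p ∧ ∃ S, LowDegree D z S ∧ r ∈ S ∧
        ∀ r' ∈ S, W y r') = 0 := by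
      have e : pr (fun r => ∃ y : List Bool, y.length ≤ p ∧ ∃ S, LowDegree D z S ∧ r ∈ S ∧
          ∀ r' ∈ S, W y r') = pr (fun _ : Fin m → Bool => False) := by
        apply pr_congr
        intro r
        constructor
        · rintro ⟨y, -, S, ⟨Q, -, hQ⟩, hr, -⟩
          have := (hQ r).mp hr
          simp at this
        · exact False.elim
      rw [e]
      unfold pr av
      simp
    have h1 := pr_nonneg (fun r : Fin m → Bool => ∃ y ∈ ([] : List (List Bool)), W y r)
    have h2 : (0 : ℝ) < 1 / (4 * U) := by positivity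
    rw [h0]
    linarith
  · have hMr : (0 : ℝ) < M := by exact_mod_cast hM
    set X : ℕ := 8 * M * U * 2 ^ D with hX
    have hX1 : 1 ≤ X := Nat.succ_le_of_lt (by positivity)
    set k := kk X with hk
    let F : Set (Set (Fin m → Bool)) :=
      {S | LowDegree D z S ∧ ∃ y : List Bool, y.length ≤ p ∧ ∀ r' ∈ S, W y r'}
    obtain ⟨l, hl, hlen, hpr⟩ := hSub m M D k z F (fun S hS => hS.1)
    let f : Set (Fin m → Bool) → List Bool := fun S =>
      if h : ∃ y : List Bool, y.length ≤ p ∧ ∀ r' ∈ S, W y r' then Classical.choose h else []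
    have hf : ∀ S ∈ F, (f S).length ≤ p ∧ ∀ r' ∈ S, W (f S) r' := by
      intro S hS
      have e : f S = Classical.choose hS.2 := dif_pos hS.2
      rw [e]
      exact Classical.choose_spec hS.2
    refine ⟨l.map f, ?_, ?_, ?_⟩
    · intro y hy
      rw [List.mem_map] at hy
      obtain ⟨S, hS, rfl⟩ := hy
      exact (hf S (hl S hS)).1
    · rw [List.length_map]
      refine hlen.trans ?_
      unfold ns
      rw [← hX]
      have h1 := (hNum.1 k D).1
      have h2 := (hNum.2 X hX1).2
      have h3 : bin k D ≤ (2 * X) ^ 3 := h1.trans h2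
      exact Nat.mul_le_mul_left _ (Nat.mul_le_mul_left _ h3)
    · have h1 : pr (fun r => ∃ y : List Bool, y.length ≤ p ∧ ∃ S, LowDegree D z S ∧ r ∈ S ∧
          ∀ r' ∈ S, W y r') ≤ pr (fun r => ∃ y ∈ l.map f, W y r) +
          pr (fun r => (∃ S ∈ F, r ∈ S) ∧ ∀ S ∈ l, r ∉ S) := by
        apply pr_le_add_of_imp
        rintro r ⟨y, hy, S, hS, hr, hW⟩
        by_cases hc : ∃ S' ∈ l, r ∈ S'
        · obtain ⟨S', hS', hr'⟩ := hc
          left
          exact ⟨f S', List.mem_map.mpr ⟨S', hS', rfl⟩, (hf S' (hl S' hS')).2 r hr'⟩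
        · right
          refine ⟨⟨S, ⟨hS, y, hy, hW⟩, hr⟩, ?_⟩
          intro S' hS' hr'
          exact hc ⟨S', hS', hr'⟩
      have h2 : 2 * ((M * bin k D : ℕ) : ℝ) / 2 ^ k ≤ 1 / (4 * U) := by
        have h3 := (hNum.1 k D).2
        have h4 := (hNum.2 X hX1).1
        rw [← hk] at h4
        have h5 : (bin k D : ℝ) / 2 ^ k ≤ 2 ^ D * (1 / X) :=
          h3.trans (mul_le_mul_of_nonneg_left h4 (by positivity))
        have e1 : 2 * ((M * bin k D : ℕ) : ℝ) / 2 ^ k = 2 * M * ((bin k D : ℝ) / 2 ^ k) := by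
          push_cast; ring
        rw [e1]
        refine (mul_le_mul_of_nonneg_left h5 (by positivity)).trans (le_of_eq ?_)
        have e2 : (X : ℝ) = 8 * M * U * 2 ^ D := by rw [hX]; push_cast; ring
        rw [e2]
        field_simp
        norm_num
      linarith

end Pool.Agent.Helper8.MG
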